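import Pool.Agent.Q256.HX.StmC

/-!
# The canonical heights for Hénon maps (helper6, job HHC)
-/

set_option autoImplicit false
set_option maxHeartbeats 400000

namespace Pool.Agent.Q6.HX

open Height Height.AdmissibleAbsValues Filter Topology

section real

theorem lim1 (a : ℕ → ℝ) (ha : ∀ j, 0 ≤ a j) {d C : ℝ} (hd : 2 ≤ d) (hC : 0 ≤ C)
    (hU : ∀ j, a (j + 1) ≤ d * a j + C) : ∃ l : ℝ, Tendsto (fun j => a j / d ^ j) atTop (𝓝 l) := by
  have hd0 : 0 < d := by linarith
  have hd1 : 0 < d - 1 := by linarith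
  set g : ℕ → ℝ := fun j => a j / d ^ j + C / (d - 1) * (1 / d) ^ j with hg
  have hanti : Antitone g := by
    refine antitone_nat_of_succ_le fun j => ?_
    simp only [hg]
    have hp : 0 < d ^ j := by positivity
    have h1 : a (j + 1) / d ^ (j + 1) ≤ a j / d ^ j + C / d ^ (j + 1) := by
      rw [pow_succ, div_add_div _ _ (by positivity) (by positivity),
        div_le_div_iff₀ (by positivity) (by positivity)]
      have := mul_le_mul_of_nonneg_left (hU j) (by positivity : 0 ≤ d ^ j * d * (d ^ j))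
      nlinarith
    have h2 : C / d ^ (j + 1) + C / (d - 1) * (1 / d) ^ (j + 1) = C / (d - 1) * (1 / d) ^ j := by
      rw [one_div, inv_pow, inv_pow, pow_succ]
      field_simp
      ring
    linarith
  have hbdd : BddBelow (Set.range g) := by
    refine ⟨0, ?_⟩
    rintro _ ⟨j, rfl⟩
    have := ha j
    simp only [hg]
    positivity
  have h1 := tendsto_atTop_ciInf hanti hbdd
  have h2 : Tendsto (fun j : ℕ => C / (d - 1) * (1 / d) ^ j) atTop (𝓝 (C / (d - 1) * 0)) := by
    refine Tendsto.const_mul _ ?_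
    refine tendsto_pow_atTop_nhds_zero_of_lt_one (by positivity) ?_
    rw [div_lt_one hd0]
    linarith
  refine ⟨_, (h1.sub h2).congr fun j => ?_⟩
  simp only [hg]
  ring

theorem lim2 (a : ℕ → ℝ) {d C l : ℝ} (hd : 2 ≤ d)
    (hL : ∀ j, (d ^ 2 + 1) * a (j + 1) ≤ d * a (j + 2) + d * a j + C)
    (hl : Tendsto (fun j => a j / d ^ j) atTop (𝓝 l)) :
    (a 1 - C / (d - 1) ^ 2) - (a 0 - C / (d - 1) ^ 2) / d ≤ (d - 1 / d) * l := by
  have hd0 : 0 < d := by linarith
  have hd1 : 0 < d - 1 := by linarith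
  set C' := C / (d - 1) ^ 2 with hC'
  have hCC : C = (d - 1) ^ 2 * C' := by
    rw [hC']
    field_simp
  set g : ℕ → ℝ := fun j => a j - C' with hg
  set u : ℕ → ℝ := fun j => g (j + 1) - g j / d with hu
  have hstep : ∀ j, d * u j ≤ u (j + 1) := by
    intro j
    have h1 := hL j
    simp only [hu, hg]
    have e : d * (a (j + 1) - C' - (a j - C') / d) = d * (a (j + 1) - C') - (a j - C') := by
      field_simp
    rw [e, le_sub_iff_add_le, ← le_sub_iff_add_le', div_le_iff₀ hd0]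
    rw [hCC] at h1
    nlinarith
  have hpow : ∀ j, u 0 ≤ u j / d ^ j := by
    intro j
    induction j with
    | zero => simp
    | succ j ih =>
      refine ih.trans ?_
      rw [pow_succ, div_le_div_iff₀ (by positivity) (by positivity)]
      have h1 := hstep j
      have h2 : 0 < d ^ j := by positivity
      nlinarith
  have h0 : Tendsto (fun j : ℕ => C' * (1 / d) ^ j) atTop (𝓝 (C' * 0)) := by
    refine Tendsto.const_mul _ ?_
    refine tendsto_pow_atTop_nhds_zero_of_lt_one (by positivity) ?_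
    rw [div_lt_one hd0]
    linarith
  have h1 : Tendsto (fun j => g j / d ^ j) atTop (𝓝 (l - C' * 0)) := by
    refine (hl.sub h0).congr fun j => ?_
    simp only [hg]
    rw [one_div, inv_pow, sub_div]
    rfl
  have h2 : Tendsto (fun j => g (j + 1) / d ^ (j + 1)) atTop (𝓝 (l - C' * 0)) :=
    h1.comp (tendsto_add_atTop_nat 1)
  have h3 : Tendsto (fun j => u j / d ^ j) atTop
      (𝓝 (d * (l - C' * 0) - (1 / d) * (l - C' * 0))) := by
    refine ((h2.const_mul d).sub (h1.const_mul (1 / d))).congr fun j => ?_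
    simp only [hu]
    rw [pow_succ]
    field_simp
  have h4 := ge_of_tendsto' h3 hpow
  have h5 : d * (l - C' * 0) - (1 / d) * (l - C' * 0) = (d - 1 / d) * l := by ring
  rw [h5] at h4
  exact h4

theorem lim3 (h : ℤ → ℝ) (h0 : ∀ n, 0 ≤ h n) {d C : ℝ} (hd : 2 ≤ d) (hC : 0 ≤ C)
    (hU : ∀ n, h (n + 1) ≤ d * h n + C) (hU' : ∀ n, h (n - 1) ≤ d * h n + C)
    (hL : ∀ n, (d ^ 2 + 1) * h n ≤ d * h (n + 1) + d * h (n - 1) + C) :
    ∃ hp hm : ℝ, Tendsto (fun j : ℕ => h j / d ^ j) atTop (𝓝 hp) ∧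
      Tendsto (fun j : ℕ => h (-(j : ℤ)) / d ^ j) atTop (𝓝 hm) ∧ h 0 ≤ hp + hm + C := by
  have hd0 : 0 < d := by linarith
  obtain ⟨hp, h1⟩ := lim1 (fun j : ℕ => h j) (fun j => h0 _) hd hC (fun j => by
    have := hU j
    push_cast
    exact this)
  obtain ⟨hm, h2⟩ := lim1 (fun j : ℕ => h (-(j : ℤ))) (fun j => h0 _) hd hC (fun j => by
    have := hU' (-(j : ℤ))
    have e : -(((j + 1 : ℕ) : ℤ)) = -(j : ℤ) - 1 := by push_cast; ring
    simp only [e]
    exact this)
  have h3 := lim2 (fun j : ℕ => h j) (C := C) hd (fun j => by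
    have h4 := hL (j + 1)
    have e1 : ((j : ℤ) + 1 + 1) = ((j + 2 : ℕ) : ℤ) := by push_cast; ring
    have e2 : ((j : ℤ) + 1 - 1) = (j : ℤ) := by ring
    rw [e1, e2] at h4
    push_cast at h4 ⊢
    exact h4) h1
  have h4 := lim2 (fun j : ℕ => h (-(j : ℤ))) (C := C) hd (fun j => by
    have h4 := hL (-((j : ℤ) + 1))
    have e1 : -((j : ℤ) + 1) + 1 = -(j : ℤ) := by ring
    have e2 : -((j : ℤ) + 1) - 1 = -(((j + 2 : ℕ)) : ℤ) := by push_cast; ring
    rw [e1, e2] at h4
    have e3 : -(((j + 1 : ℕ)) : ℤ) = -((j : ℤ) + 1) := by push_cast; ring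
    simp only [e3]
    linarith) h2
  refine ⟨hp, hm, h1, h2, ?_⟩
  have h5 := hL 0
  simp only [Nat.cast_zero, Nat.cast_one, neg_zero] at h3 h4
  rw [zero_add, zero_sub] at h5
  set C' := C / (d - 1) ^ 2 with hC'
  have hd1 : 0 < d - 1 := by linarith
  have hCC : C = (d - 1) ^ 2 * C' := by
    rw [hC']
    field_simp
  have hC'0 : 0 ≤ C' := by positivity
  have hC'le : C' ≤ C := by
    rw [hCC]
    have : 1 ≤ (d - 1) ^ 2 := one_le_pow₀ (by linarith)
    nlinarith
  have h6 : (d - 1 / d) * (h 0 - C') ≤ (d - 1 / d) * (hp + hm) := by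
    have h7 : (d + 1 / d) * (h 0 - C') ≤ (h 1 - C') + (h (-1) - C') := by
      have e : (d + 1 / d) * (h 0 - C') = ((d ^ 2 + 1) * (h 0 - C')) / d := by field_simp
      rw [e, div_le_iff₀ hd0]
      rw [hCC] at h5
      nlinarith
    have e : (d - 1 / d) * (h 0 - C') = (d + 1 / d) * (h 0 - C') - 2 * ((h 0 - C') / d) := by
      ring
    rw [e]
    linarith
  have h8 : 0 < d - 1 / d := by
    have : 1 / d ≤ 1 := by
      rw [div_le_one hd0]
      linarith
    linarith
  have h9 := le_of_mul_le_mul_left h6 h8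
  linarith

end real

section loc

variable {K : Type} [Field K]

/-- the quantities which enter the bounds -/
noncomputable def yc (F : Polynomial K) (δ : K) (d i : ℕ) : K :=
  if i ≤ d then F.coeff i else if i = d + 1 then δ else if i = d + 2 then δ⁻¹ else (F.coeff d)⁻¹

/-- the local constant -/
noncomputable def Bv (v : AbsoluteValue K ℝ) (F : Polynomial K) (δ : K) (d : ℕ) : ℝ :=
  ∏ i ∈ Finset.range (d + 4), max (v (yc F δ d i)) 1

theorem one_le_Bv (v : AbsoluteValue K ℝ) (F : Polynomial K) (δ : K) (d : ℕ) :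
    1 ≤ Bv v F δ d := Finset.one_le_prod fun _ _ => le_max_right _ _

theorem le_Bv (v : AbsoluteValue K ℝ) (F : Polynomial K) (δ : K) {d i : ℕ} (hi : i < d + 4) :
    v (yc F δ d i) ≤ Bv v F δ d := by
  have hi' := Finset.mem_range.2 hi
  calc v (yc F δ d i) ≤ max (v (yc F δ d i)) 1 := le_max_left _ _
    _ ≤ Bv v F δ d := by
      unfold Bv
      have h := Finset.mul_prod_erase (Finset.range (d + 4)) (fun i => max (v (yc F δ d i)) 1) hi'
      rw [← h]
      exact le_mul_of_one_le_right (by positivity)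
        (Finset.one_le_prod fun _ _ => le_max_right _ _)

variable {v : AbsoluteValue K ℝ} {F : Polynomial K} {δ : K} {c : ℝ}

/-- the bound of a sum -/
def SB (v : AbsoluteValue K ℝ) (d : ℕ) (c : ℝ) : Prop :=
  ∀ (T : ℕ → K) (B : ℝ), (∀ i ∈ Finset.range (d + 2), v (T i) ≤ B) →
    v (∑ i ∈ Finset.range (d + 2), T i) ≤ c * B

theorem bc (v : AbsoluteValue K ℝ) (F : Polynomial K) (δ : K) {d i : ℕ} (hi : i ≤ d) :
    v (F.coeff i) ≤ Bv v F δ d := by
  have h := le_Bv v F δ (d := d) (i := i) (by omega)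
  simpa [yc, hi] using h

theorem bδ (v : AbsoluteValue K ℝ) (F : Polynomial K) (δ : K) (d : ℕ) : v δ ≤ Bv v F δ d := by
  have h := le_Bv v F δ (d := d) (i := d + 1) (by omega)
  simpa [yc] using h

theorem bδ' (v : AbsoluteValue K ℝ) (F : Polynomial K) (δ : K) (d : ℕ) :
    v δ⁻¹ ≤ Bv v F δ d := by
  have h := le_Bv v F δ (d := d) (i := d + 2) (by omega)
  simpa [yc] using h

theorem ba' (v : AbsoluteValue K ℝ) (F : Polynomial K) (δ : K) (d : ℕ) :
    v (F.coeff d)⁻¹ ≤ Bv v F δ d := by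
  have h := le_Bv v F δ (d := d) (i := d + 3) (by omega)
  simpa [yc] using h

/-- splitting a sum with `d + 2` terms -/
theorem sum_two (d : ℕ) (f : ℕ → K) (p q : K) :
    ∑ i ∈ Finset.range (d + 2), (if i < d then f i else if i = d then p else q) =
      (∑ i ∈ Finset.range d, f i) + p + q := by
  rw [Finset.sum_range_succ, Finset.sum_range_succ]
  have h2 : ∑ i ∈ Finset.range d, (if i < d then f i else if i = d then p else q) =
      ∑ i ∈ Finset.range d, f i := by
    refine Finset.sum_congr rfl fun i hi => ?_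
    rw [Finset.mem_range] at hi
    simp [hi]
  rw [h2]
  simp

theorem L1 {d : ℕ} (hd : F.natDegree = d) (hd2 : 2 ≤ d) (hsum : SB v d c) {z p q : K}
    (h : F.eval z = p + δ * q) {R : ℝ} (hp : v p ≤ R) (hq : v q ≤ R)
    (hz : (max 1 (v z)) ^ (d - 1) ≤ R) : v z ^ d ≤ c * Bv v F δ d ^ 2 * R := by
  set B := Bv v F δ d with hB
  have hB1 : 1 ≤ B := one_le_Bv v F δ d
  have hR : 1 ≤ R := (one_le_pow₀ (le_max_left 1 (v z))).trans hz
  have hlead : F.coeff d ≠ 0 := by
    rw [← hd, Polynomial.coeff_natDegree]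
    intro h
    rw [Polynomial.leadingCoeff_eq_zero] at h
    rw [h] at hd
    simp at hd
    omega
  have hs := hsum (fun i => if i < d then -(F.coeff i * z ^ i) else if i = d then p else δ * q)
    (B * R) (by
      intro i hi
      rw [Finset.mem_range] at hi
      split_ifs with h1 h2
      · rw [v.map_neg, v.map_mul, v.map_pow]
        have h3 : v z ^ i ≤ R := by
          calc v z ^ i ≤ (max 1 (v z)) ^ i := pow_le_pow_left₀ (v.nonneg _) (le_max_right _ _) _
            _ ≤ (max 1 (v z)) ^ (d - 1) := pow_le_pow_right₀ (le_max_left _ _) (by omega)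
            _ ≤ R := hz
        exact mul_le_mul (bc v F δ h1.le) h3 (by positivity) (by positivity)
      · calc v p ≤ R := hp
          _ ≤ B * R := le_mul_of_one_le_left (by positivity) hB1
      · rw [v.map_mul]
        exact mul_le_mul (bδ v F δ d) hq (v.nonneg _) (by positivity))
  rw [sum_two] at hs
  have e : (∑ i ∈ Finset.range d, -(F.coeff i * z ^ i)) + p + δ * q = F.coeff d * z ^ d := by
    rw [Polynomial.eval_eq_sum_range, hd, Finset.sum_range_succ] at h
    rw [Finset.sum_neg_distrib]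
    linear_combination -h
  rw [e, v.map_mul, v.map_pow] at hs
  have hv0 : 0 < v (F.coeff d) := v.pos hlead
  have h6 : v (F.coeff d)⁻¹ = (v (F.coeff d))⁻¹ := map_inv₀ v _
  have h7 := ba' v F δ d
  calc v z ^ d = (v (F.coeff d))⁻¹ * (v (F.coeff d) * v z ^ d) := by field_simp
    _ ≤ B * (c * (B * R)) := by
      rw [h6] at h7
      exact mul_le_mul h7 hs (by positivity) (by positivity)
    _ = c * B ^ 2 * R := by ring

theorem L23 {d : ℕ} (hd : F.natDegree = d) (hsum : SB v d c) {z w : K} {R : ℝ}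
    (hz : (max 1 (v z)) ^ d ≤ R) (hw : v w ≤ Bv v F δ d * R) :
    v (F.eval z + w) ≤ c * (Bv v F δ d * R) := by
  set B := Bv v F δ d with hB
  have hB1 : 1 ≤ B := one_le_Bv v F δ d
  have hR : 1 ≤ R := (one_le_pow₀ (le_max_left 1 (v z))).trans hz
  have hmon : ∀ i, i ≤ d → v (F.coeff i * z ^ i) ≤ B * R := by
    intro i hi
    rw [v.map_mul, v.map_pow]
    have h3 : v z ^ i ≤ R := by
      calc v z ^ i ≤ (max 1 (v z)) ^ i := pow_le_pow_left₀ (v.nonneg _) (le_max_right _ _) _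
        _ ≤ (max 1 (v z)) ^ d := pow_le_pow_right₀ (le_max_left _ _) hi
        _ ≤ R := hz
    exact mul_le_mul (bc v F δ hi) h3 (by positivity) (by positivity)
  have hs := hsum (fun i => if i < d then F.coeff i * z ^ i else if i = d then
    F.coeff d * z ^ d else w) (B * R) (by
      intro i hi
      rw [Finset.mem_range] at hi
      split_ifs with h1 h2
      · exact hmon i h1.le
      · exact hmon d le_rfl
      · exact hw)
  rw [sum_two] at hs
  have e : F.eval z + w = (∑ i ∈ Finset.range d, F.coeff i * z ^ i) + F.coeff d * z ^ d + w := by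
    rw [Polynomial.eval_eq_sum_range, hd, Finset.sum_range_succ]
  rw [e]
  exact hs

theorem L2 {d : ℕ} (hd : F.natDegree = d) (hc : 1 ≤ c) (hsum : SB v d c) {z p q : K}
    (h : F.eval z = p + δ * q) {R : ℝ} (hq : v q ≤ R)
    (hz : (max 1 (v z)) ^ d ≤ R) : v p ≤ c * Bv v F δ d ^ 2 * R := by
  set B := Bv v F δ d with hB
  have hB1 : 1 ≤ B := one_le_Bv v F δ d
  have hR : 1 ≤ R := (one_le_pow₀ (le_max_left 1 (v z))).trans hz
  have h1 := L23 (δ := δ) hd hsum (w := -(δ * q)) hz (by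
    rw [v.map_neg, v.map_mul]
    exact mul_le_mul (bδ v F δ d) hq (v.nonneg _) (by positivity))
  have e : F.eval z + -(δ * q) = p := by rw [h]; ring
  rw [e] at h1
  calc v p ≤ c * (B * R) := h1
    _ ≤ c * (B * R) * B := le_mul_of_one_le_right (by positivity) hB1
    _ = c * B ^ 2 * R := by ring

theorem L3 {d : ℕ} (hd : F.natDegree = d) (hδ : δ ≠ 0) (hsum : SB v d c)
    {z p q : K} (h : F.eval z = p + δ * q) {R : ℝ} (hp : v p ≤ R)
    (hz : (max 1 (v z)) ^ d ≤ R) : v q ≤ c * Bv v F δ d ^ 2 * R := by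
  set B := Bv v F δ d with hB
  have hB1 : 1 ≤ B := one_le_Bv v F δ d
  have hR : 1 ≤ R := (one_le_pow₀ (le_max_left 1 (v z))).trans hz
  have h1 := L23 (δ := δ) hd hsum (w := -p) hz (by
    rw [v.map_neg]
    exact hp.trans (le_mul_of_one_le_left (by positivity) hB1))
  have e : F.eval z + -p = δ * q := by rw [h]; ring
  rw [e, v.map_mul] at h1
  have hv0 : 0 < v δ := v.pos hδ
  have h6 : v δ⁻¹ = (v δ)⁻¹ := map_inv₀ v _
  have h7 := bδ' v F δ d
  rw [h6] at h7
  calc v q = (v δ)⁻¹ * (v δ * v q) := by field_simp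
    _ ≤ B * (c * (B * R)) := mul_le_mul h7 h1 (by positivity) (by positivity)
    _ = c * B ^ 2 * R := by ring

/-- the norm of a point -/
noncomputable def Mm (v : AbsoluteValue K ℝ) (x : ℤ → K) (n : ℤ) : ℝ :=
  max 1 (max (v (x n)) (v (x (n + 1))))

theorem one_le_Mm (v : AbsoluteValue K ℝ) (x : ℤ → K) (n : ℤ) : 1 ≤ Mm v x n := le_max_left _ _

variable {x : ℤ → K}

theorem le_Mm (n : ℤ) : v (x n) ≤ Mm v x n := (le_max_left _ _).trans (le_max_right _ _)

theorem le_Mm' (n : ℤ) : v (x (n + 1)) ≤ Mm v x n := (le_max_right _ _).trans (le_max_right _ _)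

theorem le_Mm1 (n : ℤ) : v (x n) ≤ Mm v x (n - 1) := by
  have h := le_Mm' (v := v) (x := x) (n - 1)
  rwa [sub_add_cancel] at h

theorem mx_Mm (n : ℤ) : max 1 (v (x n)) ≤ Mm v x n := max_le (one_le_Mm _ _ _) (le_Mm n)

theorem mx_Mm' (n : ℤ) : max 1 (v (x (n + 1))) ≤ Mm v x n := max_le (one_le_Mm _ _ _) (le_Mm' n)

theorem mx_Mm1 (n : ℤ) : max 1 (v (x n)) ≤ Mm v x (n - 1) :=
  max_le (one_le_Mm _ _ _) (le_Mm1 n)

theorem recA (hx : ∀ n, x (n + 1) + δ * x (n - 1) = F.eval (x n)) (n : ℤ) :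
    F.eval (x (n + 1)) = x (n + 2) + δ * x n := by
  have h := hx (n + 1)
  have e1 : n + 1 + 1 = n + 2 := by ring
  have e2 : n + 1 - 1 = n := by ring
  rw [e1, e2] at h
  exact h.symm

theorem le_pow_self {M : ℝ} (hM : 1 ≤ M) {d : ℕ} (hd : 2 ≤ d) : M ≤ M ^ d :=
  le_self_pow₀ hM (by omega)

theorem locU {d : ℕ} (hd : F.natDegree = d) (hd2 : 2 ≤ d) (hc : 1 ≤ c) (hsum : SB v d c)
    (hx : ∀ n, x (n + 1) + δ * x (n - 1) = F.eval (x n)) (n : ℤ) :
    Mm v x (n + 1) ≤ c * Bv v F δ d ^ 2 * Mm v x n ^ d := by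
  have hB1 := one_le_Bv v F δ d
  have hM := one_le_Mm v x n
  have hE : 1 ≤ c * Bv v F δ d ^ 2 := one_le_mul_of_one_le_of_one_le hc (one_le_pow₀ hB1)
  have hMd : 1 ≤ Mm v x n ^ d := one_le_pow₀ hM
  have hMM := le_pow_self hM hd2
  have e : n + 1 + 1 = n + 2 := by ring
  have h1 := L2 hd hc hsum (recA hx n) (R := Mm v x n ^ d) ((le_Mm n).trans hMM)
    (pow_le_pow_left₀ (by positivity) (mx_Mm' n) _)
  refine max_le (one_le_mul_of_one_le_of_one_le hE hMd) (max_le ?_ ?_)
  · exact ((le_Mm' n).trans hMM).trans (le_mul_of_one_le_left (by positivity) hE)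
  · rw [e]
    exact h1

theorem locU' {d : ℕ} (hd : F.natDegree = d) (hd2 : 2 ≤ d) (hδ : δ ≠ 0) (hc : 1 ≤ c)
    (hsum : SB v d c) (hx : ∀ n, x (n + 1) + δ * x (n - 1) = F.eval (x n)) (n : ℤ) :
    Mm v x (n - 1) ≤ c * Bv v F δ d ^ 2 * Mm v x n ^ d := by
  have hB1 := one_le_Bv v F δ d
  have hM := one_le_Mm v x n
  have hE : 1 ≤ c * Bv v F δ d ^ 2 := one_le_mul_of_one_le_of_one_le hc (one_le_pow₀ hB1)
  have hMd : 1 ≤ Mm v x n ^ d := one_le_pow₀ hM
  have hMM := le_pow_self hM hd2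
  have h1 := L3 hd hδ hsum (hx n).symm (R := Mm v x n ^ d) ((le_Mm' n).trans hMM)
    (pow_le_pow_left₀ (by positivity) (mx_Mm n) _)
  refine max_le (one_le_mul_of_one_le_of_one_le hE hMd) (max_le h1 ?_)
  rw [sub_add_cancel]
  exact ((le_Mm n).trans hMM).trans (le_mul_of_one_le_left (by positivity) hE)

/-- the combination of the inequalities -/
theorem comb {d : ℕ} (hd2 : 2 ≤ d) {E M P Q R z : ℝ} (hE : 1 ≤ E) (hM : 1 ≤ M) (hP : 1 ≤ P)
    (hQ : 1 ≤ Q) (h1 : M ^ d ≤ E * max z (M ^ (d - 1))) (hz : z ≤ P) (h2 : M ≤ E * Q ^ d)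
    (hR : R = M) : R ^ (d ^ 2 + 1) ≤ E ^ (d ^ 2 + 1) * (P ^ d * Q ^ d) := by
  subst hR
  have hPQ : 1 ≤ P ^ d * Q ^ d := one_le_mul_of_one_le_of_one_le (one_le_pow₀ hP) (one_le_pow₀ hQ)
  rcases le_total z (R ^ (d - 1)) with h | h
  · rw [max_eq_right h] at h1
    have h3 : R ≤ E := by
      have e : R ^ d = R * R ^ (d - 1) := by rw [← pow_succ']; congr 1; omega
      rw [e] at h1
      exact le_of_mul_le_mul_right h1 (by positivity)
    calc R ^ (d ^ 2 + 1) ≤ E ^ (d ^ 2 + 1) := pow_le_pow_left₀ (by linarith) h3 _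
      _ ≤ E ^ (d ^ 2 + 1) * (P ^ d * Q ^ d) := le_mul_of_one_le_right (by positivity) hPQ
  · rw [max_eq_left h] at h1
    have h3 : R ^ d ≤ E * P := h1.trans (mul_le_mul_of_nonneg_left hz (by linarith))
    calc R ^ (d ^ 2 + 1) = (R ^ d) ^ d * R := by rw [pow_succ, sq, pow_mul]
      _ ≤ (E * P) ^ d * (E * Q ^ d) :=
        mul_le_mul (pow_le_pow_left₀ (by positivity) h3 _) h2 (by linarith) (by positivity)
      _ = E ^ (d + 1) * (P ^ d * Q ^ d) := by ring
      _ ≤ E ^ (d ^ 2 + 1) * (P ^ d * Q ^ d) := by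
        refine mul_le_mul_of_nonneg_right (pow_le_pow_right₀ hE ?_) (by positivity)
        nlinarith

theorem locL {d : ℕ} (hd : F.natDegree = d) (hd2 : 2 ≤ d) (hδ : δ ≠ 0) (hc : 1 ≤ c)
    (hsum : SB v d c) (hx : ∀ n, x (n + 1) + δ * x (n - 1) = F.eval (x n)) (n : ℤ) :
    Mm v x n ^ (d ^ 2 + 1) ≤
      (c * Bv v F δ d ^ 2) ^ (d ^ 2 + 1) * (Mm v x (n + 1) ^ d * Mm v x (n - 1) ^ d) := by
  have hB1 := one_le_Bv v F δ d
  have hE : 1 ≤ c * Bv v F δ d ^ 2 := one_le_mul_of_one_le_of_one_le hc (one_le_pow₀ hB1)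
  set E := c * Bv v F δ d ^ 2 with hEdef
  have hMp := one_le_Mm v x (n + 1)
  have hMm := one_le_Mm v x (n - 1)
  rcases le_total (max 1 (v (x n))) (max 1 (v (x (n + 1)))) with h | h
  · set M := max 1 (v (x (n + 1))) with hMdef
    have hM1 : 1 ≤ M := le_max_left _ _
    have hMn : Mm v x n = M := by
      refine le_antisymm (max_le hM1 (max_le ((le_max_right _ _).trans h) (le_max_right _ _)))
        (mx_Mm' n)
    have hMM : M ≤ M ^ (d - 1) := le_self_pow₀ hM1 (by omega)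
    have h1 := L1 hd hd2 hsum (recA hx n) (R := max (v (x (n + 2))) (M ^ (d - 1)))
      (le_max_left _ _) (((le_max_right _ _).trans (h.trans hMM)).trans (le_max_right _ _))
      (le_max_right _ _)
    have h2 : M ^ d ≤ E * max (v (x (n + 2))) (M ^ (d - 1)) := by
      rcases le_total 1 (v (x (n + 1))) with h3 | h3
      · rw [hMdef, max_eq_right h3] at *
        exact h1
      · have h4 : M = 1 := max_eq_left h3
        rw [h4, one_pow]
        exact one_le_mul_of_one_le_of_one_le hE ((one_pow (d - 1)).symm.le.trans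
          (le_max_right _ _))
    have h5 : v (x (n + 2)) ≤ Mm v x (n + 1) := by
      have := le_Mm' (v := v) (x := x) (n + 1)
      have e : n + 1 + 1 = n + 2 := by ring
      rwa [e] at this
    have h6 := L2 hd hc hsum (hx n).symm (R := Mm v x (n - 1) ^ d)
      ((le_Mm (n - 1)).trans (le_pow_self hMm hd2))
      (pow_le_pow_left₀ (by positivity) (mx_Mm1 n) _)
    exact comb hd2 hE hM1 hMp hMm h2 h5 (max_le (one_le_mul_of_one_le_of_one_le hE
      (one_le_pow₀ hMm)) h6) hMn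
  · set M := max 1 (v (x n)) with hMdef
    have hM1 : 1 ≤ M := le_max_left _ _
    have hMn : Mm v x n = M := by
      refine le_antisymm (max_le hM1 (max_le (le_max_right _ _) ((le_max_right _ _).trans h)))
        (mx_Mm n)
    have hMM : M ≤ M ^ (d - 1) := le_self_pow₀ hM1 (by omega)
    have h1 := L1 hd hd2 hsum (hx n).symm (R := max (v (x (n - 1))) (M ^ (d - 1)))
      (((le_max_right _ _).trans (h.trans hMM)).trans (le_max_right _ _)) (le_max_left _ _)
      (le_max_right _ _)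
    have h2 : M ^ d ≤ E * max (v (x (n - 1))) (M ^ (d - 1)) := by
      rcases le_total 1 (v (x n)) with h3 | h3
      · rw [hMdef, max_eq_right h3] at *
        exact h1
      · have h4 : M = 1 := max_eq_left h3
        rw [h4, one_pow]
        exact one_le_mul_of_one_le_of_one_le hE ((one_pow (d - 1)).symm.le.trans
          (le_max_right _ _))
    have h5 : v (x (n - 1)) ≤ Mm v x (n - 1) := le_Mm (n - 1)
    have h6 := L3 hd hδ hsum (recA hx n) (R := Mm v x (n + 1) ^ d) (by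
      have h7 := le_Mm' (v := v) (x := x) (n + 1)
      have e : n + 1 + 1 = n + 2 := by ring
      rw [e] at h7
      exact h7.trans (le_pow_self hMp hd2))
      (pow_le_pow_left₀ (by positivity) (mx_Mm (n + 1)) _)
    have h8 := comb hd2 hE hM1 hMm hMp h2 h5 (max_le (one_le_mul_of_one_le_of_one_le hE
      (one_le_pow₀ hMp)) h6) hMn
    rw [mul_comm (Mm v x (n + 1) ^ d)]
    exact h8

end loc

section glob

variable {K : Type} [Field K] [AdmissibleAbsValues K]

/-- the product over the places -/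
noncomputable def Hf (φ : AbsoluteValue K ℝ → ℝ) : ℝ :=
  (archAbsVal.map φ).prod * ∏ᶠ v : nonarchAbsVal (K := K), φ v.val

/-- finite support -/
def FM (φ : AbsoluteValue K ℝ → ℝ) : Prop :=
  (fun v : nonarchAbsVal (K := K) => φ v.val).HasFiniteMulSupport

variable {φ ψ : AbsoluteValue K ℝ → ℝ}

theorem FM.mul (hφ : FM φ) (hψ : FM ψ) : FM (fun v => φ v * ψ v) :=
  Function.HasFiniteMulSupport.mul hφ hψ

theorem Hf_mul (hφ : FM φ) (hψ : FM ψ) : Hf (fun v => φ v * ψ v) = Hf φ * Hf ψ := by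
  unfold Hf
  rw [Multiset.prod_map_mul, finprod_mul_distrib hφ hψ]
  ring

theorem FM_one : FM (fun _ : AbsoluteValue K ℝ => (1 : ℝ)) := by
  unfold FM Function.HasFiniteMulSupport
  simp

theorem Hf_one : Hf (fun _ : AbsoluteValue K ℝ => (1 : ℝ)) = 1 := by
  unfold Hf
  simp

theorem FM_Hf_pow (hφ : FM φ) (n : ℕ) :
    FM (fun v => φ v ^ n) ∧ Hf (fun v => φ v ^ n) = Hf φ ^ n := by
  induction n with
  | zero =>
    simp only [pow_zero]
    exact ⟨FM_one, Hf_one⟩
  | succ n ih =>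
    simp only [pow_succ]
    exact ⟨ih.1.mul hφ, by rw [Hf_mul ih.1 hφ, ih.2]⟩

theorem FM_Hf_prod {ι : Type} (s : Finset ι) (f : ι → AbsoluteValue K ℝ → ℝ)
    (h : ∀ i ∈ s, FM (f i)) :
    FM (fun v => ∏ i ∈ s, f i v) ∧ Hf (fun v => ∏ i ∈ s, f i v) = ∏ i ∈ s, Hf (f i) := by
  classical
  induction s using Finset.induction_on with
  | empty =>
    simp only [Finset.prod_empty]
    exact ⟨FM_one, Hf_one⟩
  | insert i s hi ih =>
    obtain ⟨h1, h2⟩ := ih fun j hj => h j (Finset.mem_insert_of_mem hj)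
    have h3 := h i (Finset.mem_insert_self _ _)
    simp only [Finset.prod_insert hi]
    exact ⟨h3.mul h1, by rw [Hf_mul h3 h1, h2]⟩

theorem Hf_le {C : ℝ} (hC : 0 ≤ C) (hφ0 : ∀ v, 0 ≤ φ v) (hψ0 : ∀ v, 0 ≤ ψ v)
    (hφ : FM φ) (hψ : FM ψ) (ha : ∀ v, φ v ≤ C * ψ v)
    (hn : ∀ v : AbsoluteValue K ℝ, IsNonarchimedean v → φ v ≤ ψ v) :
    Hf φ ≤ C ^ (totalWeight K) * Hf ψ := by
  unfold Hf
  have h1 : (archAbsVal.map φ).prod ≤
      C ^ (totalWeight K) * (archAbsVal (K := K).map ψ).prod := by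
    have e : C ^ (totalWeight K) = (archAbsVal (K := K).map fun _ => C).prod := by
      rw [Multiset.map_const', Multiset.prod_replicate]
      rfl
    rw [e, ← Multiset.prod_map_mul]
    exact Multiset.prod_map_le_prod_map₀ _ _ (fun _ _ => hφ0 _) fun _ _ => ha _
  have h2 : ∏ᶠ v : nonarchAbsVal (K := K), φ v.val ≤ ∏ᶠ v : nonarchAbsVal (K := K), ψ v.val :=
    finprod_le_finprod hφ (fun _ => hφ0 _) hψ fun v => hn _ (isNonarchimedean _ v.prop)
  have h3 : 0 ≤ ∏ᶠ v : nonarchAbsVal (K := K), φ v.val := finprod_nonneg fun _ => hφ0 _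
  have h4 : 0 ≤ (archAbsVal (K := K).map ψ).prod := Multiset.prod_map_nonneg fun _ _ => hψ0 _
  calc (archAbsVal.map φ).prod * ∏ᶠ v : nonarchAbsVal (K := K), φ v.val
      ≤ (C ^ (totalWeight K) * (archAbsVal (K := K).map ψ).prod) *
        ∏ᶠ v : nonarchAbsVal (K := K), ψ v.val := mul_le_mul h1 h2 h3 (by positivity)
    _ = _ := by ring

theorem FM_max (y : K) : FM (fun v => max (v y) 1) := by
  unfold FM
  fun_prop

theorem FM_Mm (x : ℤ → K) (n : ℤ) : FM (fun v => Mm v x n) := by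
  refine Set.Finite.subset ((FM_max (x n)).union (FM_max (x (n + 1)))) ?_
  intro v hv
  by_contra hcon
  rw [Set.mem_union, not_or] at hcon
  obtain ⟨h1, h2⟩ := hcon
  rw [Function.mem_mulSupport, not_not] at h1 h2
  simp only at h1 h2
  apply hv
  have h3 : v.val (x n) ≤ 1 := by
    have := le_max_left (v.val (x n)) 1
    rwa [h1] at this
  have h4 : v.val (x (n + 1)) ≤ 1 := by
    have := le_max_left (v.val (x (n + 1))) 1
    rwa [h2] at this
  exact max_eq_left (max_le h3 h4)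

theorem mulHeight_eq_Hf (x : ℤ → K) (n : ℤ) :
    mulHeight ![1, x n, x (n + 1)] = Hf (fun v => Mm v x n) := by
  have hx : ![1, x n, x (n + 1)] ≠ 0 := by
    intro h
    have := congrFun h 0
    simp at this
  have key : ∀ v : AbsoluteValue K ℝ, ⨆ i, v (![1, x n, x (n + 1)] i) = Mm v x n := by
    intro v
    unfold Mm
    refine le_antisymm (ciSup_le fun i => ?_) (max_le ?_ (max_le ?_ ?_))
    · fin_cases i
      · simp
      · simp
      · simp
    · exact le_ciSup_of_le (Set.finite_range _).bddAbove 0 (by simp)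
    · exact le_ciSup_of_le (Set.finite_range _).bddAbove 1 (by simp)
    · exact le_ciSup_of_le (Set.finite_range _).bddAbove 2 (by simp)
  rw [mulHeight_eq hx]
  simp only [key]
  rfl

end glob

/-- **job HHC** -/
theorem hhc : Pool.Agent.Q256.HX.S_hhc := by
  intro d D hd
  refine ⟨(d ^ 2 + 1) * ((d + 2) * D + 2 * (d + 4)), ?_⟩
  intro K _ _ hfin X hX F δ hFd hδ hFc hδc x hx
  have hX1 : (1 : ℝ) ≤ X := by exact_mod_cast (by omega : 1 ≤ X)
  have hX0 : (0 : ℝ) < X := by linarith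
  set y := yc F δ d with hy
  set W := ∏ i ∈ Finset.range (d + 4), mulHeight₁ (y i) with hW
  have hB := FM_Hf_prod (K := K) (Finset.range (d + 4)) (fun i v => max (v (y i)) 1)
    fun i _ => FM_max (y i)
  have hBW : Hf (fun v : AbsoluteValue K ℝ => Bv v F δ d) = W := hB.2
  have hBF : FM (fun v : AbsoluteValue K ℝ => Bv v F δ d) := hB.1
  have hW1 : 1 ≤ W := Finset.one_le_prod fun _ _ => one_le_mulHeight₁ _
  have hWX : W ≤ (X : ℝ) ^ (d + 4) := by
    calc W ≤ ∏ i ∈ Finset.range (d + 4), (X : ℝ) := by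
          refine Finset.prod_le_prod (fun i _ => mulHeight₁_nonneg _) fun i _ => ?_
          rw [hy]
          unfold yc
          split_ifs
          · exact hFc i
          · exact hδc
          · rw [mulHeight₁_inv]; exact hδc
          · rw [mulHeight₁_inv]; exact hFc _
      _ = (X : ℝ) ^ (d + 4) := by rw [Finset.prod_const, Finset.card_range]
  have hsumA : ∀ v : AbsoluteValue K ℝ, SB v d ((d + 2 : ℕ) : ℝ) := by
    intro v T B hB
    calc v (∑ i ∈ Finset.range (d + 2), T i)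
        ≤ ∑ i ∈ Finset.range (d + 2), v (T i) := v.sum_le _ _
      _ ≤ ∑ i ∈ Finset.range (d + 2), B := Finset.sum_le_sum hB
      _ = ((d + 2 : ℕ) : ℝ) * B := by
        rw [Finset.sum_const, Finset.card_range, nsmul_eq_mul]
  have hsumN : ∀ v : AbsoluteValue K ℝ, IsNonarchimedean v → SB v d 1 := by
    intro v hv T B hB
    have hne : (Finset.range (d + 2)).Nonempty := ⟨0, by simp⟩
    rw [one_mul]
    exact (hv.apply_sum_le_sup hne).trans (Finset.sup'_le hne _ hB)
  have hc : (1 : ℝ) ≤ ((d + 2 : ℕ) : ℝ) := by exact_mod_cast (by omega : 1 ≤ d + 2)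
  set tw := totalWeight K with htw
  have htwD : tw ≤ D := by rw [htw, NumberField.totalWeight_eq_finrank]; exact hfin
  set cc : ℝ := ((d + 2 : ℕ) : ℝ) with hcc
  set H : ℤ → ℝ := fun n => mulHeight ![1, x n, x (n + 1)] with hH
  have hHf : ∀ n, Hf (fun v => Mm v x n) = H n := fun n => (mulHeight_eq_Hf x n).symm
  have hH1 : ∀ n, 1 ≤ H n := fun n => one_le_mulHeight _
  -- the constants
  set Q := cc ^ tw * W ^ 2 with hQ
  have hQ1 : 1 ≤ Q := one_le_mul_of_one_le_of_one_le (one_le_pow₀ hc) (one_le_pow₀ hW1)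
  set A1 := (d + 2) * D + 2 * (d + 4) with hA1
  have hQX : Q ≤ (X : ℝ) ^ A1 := by
    have h4 : cc ≤ (X : ℝ) ^ (d + 2) := by
      have h5 : d + 2 ≤ X ^ (d + 2) := (Nat.lt_pow_self (by omega)).le
      rw [hcc]
      exact_mod_cast h5
    calc Q ≤ ((X : ℝ) ^ (d + 2)) ^ D * ((X : ℝ) ^ (d + 4)) ^ 2 := by
          refine mul_le_mul ?_ (pow_le_pow_left₀ (by positivity) hWX _) (by positivity)
            (by positivity)
          calc cc ^ tw ≤ ((X : ℝ) ^ (d + 2)) ^ tw := pow_le_pow_left₀ (by positivity) h4 _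
            _ ≤ ((X : ℝ) ^ (d + 2)) ^ D := pow_le_pow_right₀ (one_le_pow₀ hX1) htwD
      _ = (X : ℝ) ^ A1 := by
        rw [← pow_mul, ← pow_mul, ← pow_add, hA1]
        congr 1
        ring
  have hlogQ : Real.log Q ≤ A1 * Real.log X := by
    have := Real.log_le_log (by linarith) hQX
    rwa [Real.log_pow] at this
  have hlogQ0 : 0 ≤ Real.log Q := Real.log_nonneg hQ1
  have hMF : ∀ n, FM (fun v : AbsoluteValue K ℝ => Mm v x n) := FM_Mm x
  have hM0 : ∀ (v : AbsoluteValue K ℝ) n, 0 ≤ Mm v x n := fun v n =>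
    zero_le_one.trans (one_le_Mm _ _ _)
  have hBv0 : ∀ v : AbsoluteValue K ℝ, 0 ≤ Bv v F δ d := fun v =>
    zero_le_one.trans (one_le_Bv _ _ _ _)
  -- the upper bounds
  have up : ∀ n n' : ℤ, (∀ (v : AbsoluteValue K ℝ) (c : ℝ), 1 ≤ c → SB v d c →
      Mm v x n' ≤ c * Bv v F δ d ^ 2 * Mm v x n ^ d) →
      Real.log (H n') ≤ d * Real.log (H n) + Real.log Q := by
    intro n n' hloc
    have hF1 := FM_Hf_pow hBF 2
    have hF2 := FM_Hf_pow (hMF n) d
    have h1 := Hf_le (C := cc) (φ := fun v => Mm v x n')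
      (ψ := fun v => Bv v F δ d ^ 2 * Mm v x n ^ d) (by positivity) (fun v => hM0 v n')
      (fun v => mul_nonneg (pow_nonneg (hBv0 v) _) (pow_nonneg (hM0 v n) _)) (hMF n')
      (hF1.1.mul hF2.1)
      (fun v => by
        have := hloc v cc hc (hsumA v)
        rw [← mul_assoc]
        exact this)
      (fun v hv => by
        have := hloc v 1 le_rfl (hsumN v hv)
        rw [one_mul] at this
        exact this)
    rw [Hf_mul hF1.1 hF2.1, hF1.2, hF2.2, hBW, hHf, hHf] at h1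
    have h2 : H n' ≤ Q * H n ^ d := by
      rw [hQ, mul_assoc]
      exact h1
    have h3 := Real.log_le_log (by linarith [hH1 n']) h2
    rw [Real.log_mul (by positivity) (by have := hH1 n; positivity), Real.log_pow] at h3
    linarith
  have hlow : ∀ n : ℤ, ((d : ℝ) ^ 2 + 1) * Real.log (H n) ≤
      d * Real.log (H (n + 1)) + d * Real.log (H (n - 1)) + ((d : ℝ) ^ 2 + 1) * Real.log Q := by
    intro n
    have hF1 := FM_Hf_pow hBF (2 * (d ^ 2 + 1))
    have hF2 := FM_Hf_pow (hMF (n + 1)) d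
    have hF3 := FM_Hf_pow (hMF (n - 1)) d
    have hF4 := FM_Hf_pow (hMF n) (d ^ 2 + 1)
    have h1 := Hf_le (C := cc ^ (d ^ 2 + 1)) (φ := fun v => Mm v x n ^ (d ^ 2 + 1))
      (ψ := fun v => Bv v F δ d ^ (2 * (d ^ 2 + 1)) * (Mm v x (n + 1) ^ d * Mm v x (n - 1) ^ d))
      (by positivity) (fun v => pow_nonneg (hM0 v n) _)
      (fun v => mul_nonneg (pow_nonneg (hBv0 v) _)
        (mul_nonneg (pow_nonneg (hM0 v _) _) (pow_nonneg (hM0 v _) _))) hF4.1
      (hF1.1.mul (hF2.1.mul hF3.1))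
      (fun v => by
        have := locL hFd hd hδ hc (hsumA v) hx n
        rw [mul_pow, ← pow_mul, mul_assoc] at this
        exact this)
      (fun v hv => by
        have := locL hFd hd hδ le_rfl (hsumN v hv) hx n
        rw [one_mul, ← pow_mul] at this
        exact this)
    rw [Hf_mul hF1.1 (hF2.1.mul hF3.1), Hf_mul hF2.1 hF3.1, hF1.2, hF2.2, hF3.2, hF4.2, hBW,
      hHf, hHf, hHf] at h1
    have h2 : H n ^ (d ^ 2 + 1) ≤ Q ^ (d ^ 2 + 1) * (H (n + 1) ^ d * H (n - 1) ^ d) := by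
      refine h1.trans (le_of_eq ?_)
      rw [hQ, mul_pow, ← pow_mul, ← pow_mul, ← pow_mul]
      ring
    have p1 := hH1 n
    have p2 := hH1 (n + 1)
    have p3 := hH1 (n - 1)
    have h3 := Real.log_le_log (by positivity) h2
    rw [Real.log_mul (by positivity) (by positivity), Real.log_mul (by positivity)
      (by positivity), Real.log_pow, Real.log_pow, Real.log_pow, Real.log_pow] at h3
    push_cast at h3
    linarith
  have hd2 : (2 : ℝ) ≤ d := by exact_mod_cast hd
  have hC0 : 0 ≤ ((d : ℝ) ^ 2 + 1) * Real.log Q := by positivity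
  have hCle : Real.log Q ≤ ((d : ℝ) ^ 2 + 1) * Real.log Q :=
    le_mul_of_one_le_left hlogQ0 (by nlinarith)
  obtain ⟨hp, hm, t1, t2, t3⟩ := lim3 (fun n => Real.log (H n))
    (fun n => Real.log_nonneg (hH1 n)) hd2 hC0
    (fun n => by
      have := up n (n + 1) fun v c hc hs => locU hFd hd hc hs hx n
      linarith)
    (fun n => by
      have := up n (n - 1) fun v c hc hs => locU' hFd hd hδ hc hs hx n
      linarith)
    hlow
  refine ⟨hp, hm, t1, t2, ?_⟩
  have e1 : Real.log (H 0) = Real.log (mulHeight ![1, x 0, x 1]) := by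
    simp only [hH, zero_add]
  rw [e1] at t3
  have h5 : ((d : ℝ) ^ 2 + 1) * Real.log Q ≤
      (((d ^ 2 + 1) * A1 : ℕ) : ℝ) * Real.log X := by
    push_cast
    rw [mul_assoc]
    exact mul_le_mul_of_nonneg_left hlogQ (by positivity : 0 ≤ (d : ℝ) ^ 2 + 1)
  linarith

end Pool.Agent.Q6.HX
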