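import Pool.Agent.Q256.HX.Stm
import Pool.Agent.Q190.FX.Baker

/-!
# Orbits of bounded height of Hénon maps are bounded at all places (helper6, job HLOC)
-/

set_option autoImplicit false
set_option maxHeartbeats 400000

namespace Pool.Agent.Q6.HX

open Pool.Agent.TH450.FG Pool.Agent.Q190.FX Real

section loc

variable {K : Type} [Field K] {V : AbsoluteValue K ℝ}

theorem na_add_eq (hV : IsNonarchimedean V) {a b : K} (h : V a < V b) : V (a + b) = V b := by
  refine le_antisymm ((hV a b).trans (max_le h.le le_rfl)) ?_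
  by_contra hcon
  push Not at hcon
  have h1 := hV (a + b) (-a)
  rw [V.map_neg, add_neg_cancel_comm] at h1
  exact absurd h1 (not_le.2 (max_lt hcon h))

theorem eval_top (hV : IsNonarchimedean V) {F : Polynomial K} (hd : 2 ≤ F.natDegree)
    (hc : ∀ i, V (F.coeff i) ≤ 1) (hl : V F.leadingCoeff = 1) {z : K} (hz : 1 < V z) :
    V (F.eval z) = V z ^ F.natDegree := by
  have hz0 : 0 < V z := by linarith
  obtain ⟨n, hn⟩ : ∃ n, F.natDegree = n + 1 := ⟨F.natDegree - 1, by omega⟩
  rw [Polynomial.eval_eq_sum_range, Finset.sum_range_succ]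
  have h2 : V (F.coeff F.natDegree * z ^ F.natDegree) = V z ^ F.natDegree := by
    rw [map_mul, map_pow]
    have : V (F.coeff F.natDegree) = 1 := hl
    rw [this, one_mul]
  rw [na_add_eq hV, h2]
  rw [h2]
  refine lt_of_le_of_lt (na_sum_le V hV _ _ (B := V z ^ n) (by positivity) fun i hi => ?_) ?_
  · rw [map_mul, map_pow]
    have hi' := Finset.mem_range.1 hi
    calc V (F.coeff i) * V z ^ i ≤ 1 * V z ^ n :=
          mul_le_mul (hc i) (pow_le_pow_right₀ hz.le (by omega)) (by positivity) zero_le_one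
      _ = V z ^ n := one_mul _
  · exact pow_lt_pow_right₀ hz (by omega)

theorem esc (hV : IsNonarchimedean V) {F : Polynomial K} (hd : 2 ≤ F.natDegree)
    (hc : ∀ i, V (F.coeff i) ≤ 1) (hl : V F.leadingCoeff = 1) {u u' : K} (hu : V u = 1)
    (hu' : V u' = 1) (y : ℕ → K) (h : ∀ j, u * y (j + 2) + u' * y j = F.eval (y (j + 1)))
    (h0 : V (y 0) ≤ V (y 1)) (h1 : 1 < V (y 1)) (j : ℕ) :
    V (y 1) ^ (j + 1) ≤ V (y (j + 1)) ∧ V (y j) ≤ V (y (j + 1)) := by
  have hp : 0 < V (y 1) := by linarith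
  induction j with
  | zero => exact ⟨by simp, h0⟩
  | succ j ih =>
    obtain ⟨h2, h3⟩ := ih
    have h4 : V (y 1) ≤ V (y 1) ^ (j + 1) := le_self_pow₀ h1.le (by omega)
    have h5 : 1 < V (y (j + 1)) := by linarith
    have h6 := eval_top hV hd hc hl h5
    have h7 : V (y (j + 1)) ^ 2 ≤ V (y (j + 1)) ^ F.natDegree := pow_le_pow_right₀ h5.le hd
    have h8 : V (y (j + 1)) < V (y (j + 1)) ^ 2 := by nlinarith
    have h9 : V (y (j + 2)) = V (y (j + 1)) ^ F.natDegree := by
      have e : u * y (j + 2) = -(u' * y j) + F.eval (y (j + 1)) := by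
        rw [← h j]
        ring
      have e2 : V (u * y (j + 2)) = V (y (j + 2)) := by rw [map_mul, hu, one_mul]
      rw [← e2, e, na_add_eq hV, h6]
      rw [V.map_neg, map_mul, hu', one_mul, h6]
      linarith
    refine ⟨?_, ?_⟩
    · show V (y 1) ^ (j + 1 + 1) ≤ V (y (j + 2))
      rw [h9]
      refine le_trans ?_ h7
      rw [pow_succ, sq]
      exact mul_le_mul h2 (h4.trans h2) hp.le (by linarith)
    · show V (y (j + 1)) ≤ V (y (j + 2))
      rw [h9]
      linarith

theorem esc_false (hV : IsNonarchimedean V) {F : Polynomial K} (hd : 2 ≤ F.natDegree)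
    (hc : ∀ i, V (F.coeff i) ≤ 1) (hl : V F.leadingCoeff = 1) {u u' : K} (hu : V u = 1)
    (hu' : V u' = 1) (y : ℕ → K) (h : ∀ j, u * y (j + 2) + u' * y j = F.eval (y (j + 1)))
    (h0 : V (y 0) ≤ V (y 1)) (h1 : 1 < V (y 1)) {C : ℝ} (hC : ∀ j, V (y j) ≤ C) : False := by
  obtain ⟨n, hn⟩ := pow_unbounded_of_one_lt C h1
  have h2 := (esc hV hd hc hl hu hu' y h h0 h1 n).1
  have h3 : V (y 1) ^ n ≤ V (y 1) ^ (n + 1) := pow_le_pow_right₀ h1.le (by omega)
  linarith [hC (n + 1)]

theorem good_le (hV : IsNonarchimedean V) {F : Polynomial K} (hd : 2 ≤ F.natDegree)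
    (hc : ∀ i, V (F.coeff i) ≤ 1) (hl : V F.leadingCoeff = 1) {δ : K} (hδ : V δ = 1)
    (x : ℤ → K) (h : ∀ n, x (n + 1) + δ * x (n - 1) = F.eval (x n)) {C : ℝ}
    (hC : ∀ n, V (x n) ≤ C) (n : ℤ) : V (x n) ≤ 1 := by
  by_contra hcon
  push Not at hcon
  rcases le_total (V (x (n - 1))) (V (x n)) with h1 | h1
  · refine esc_false hV hd hc hl (u := 1) (u' := δ) (map_one V) hδ (fun j : ℕ => x (n - 1 + j)) ?_
      ?_ ?_ (C := C) fun j => hC _
    · intro j
      have h2 := h (n + j)
      have e1 : n - 1 + ((j + 2 : ℕ) : ℤ) = n + j + 1 := by push_cast; ring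
      have e2 : n - 1 + (j : ℤ) = n + j - 1 := by ring
      have e3 : n - 1 + ((j + 1 : ℕ) : ℤ) = n + j := by push_cast; ring
      simp only [e1, e2, e3]
      rw [one_mul]
      exact h2
    · simpa using h1
    · simpa using hcon
  · refine esc_false hV hd hc hl (u := δ) (u' := 1) hδ (map_one V) (fun j : ℕ => x (n - j)) ?_
      ?_ ?_ (C := C) fun j => hC _
    · intro j
      have h2 := h (n - j - 1)
      have e1 : n - ((j + 2 : ℕ) : ℤ) = n - j - 1 - 1 := by push_cast; ring
      have e3 : n - ((j + 1 : ℕ) : ℤ) = n - j - 1 := by push_cast; ring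
      have e4 : n - (j : ℤ) - 1 + 1 = n - j := by ring
      rw [e4] at h2
      simp only [e1, e3]
      rw [one_mul, add_comm]
      exact h2
    · simpa using h1
    · have : 1 < V (x (n - 1)) := lt_of_lt_of_le hcon h1
      simpa using this

end loc

/-- **job HLOC** -/
theorem hloc : Pool.Agent.Q256.HX.S_hloc := by
  intro k K _ _ _ _ Q F δ hd hδ x hx t ht m b θ hθ
  classical
  -- bounded height
  obtain ⟨B, hB0, hB⟩ : ∃ B : ℝ, 0 ≤ B ∧ ∀ n, D Q (lp Q (x n)) ≤ B := by
    refine ⟨max (∑ l, (b * D Q (lp Q t) + D Q (lp Q (θ l)))) 0, le_max_right _ _, fun n => ?_⟩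
    obtain ⟨a, ha, hrel⟩ := hθ n
    refine le_trans ?_ (le_max_left _ _)
    have h4 : D Q (lp Q (x n)) ≤ ∑ l, (D Q (lp Q (a l)) + D Q (lp Q (θ l))) := by
      have h5 := Fs.sum (Q := Q) Finset.univ (g := fun l v => lp Q (a l) v + lp Q (θ l) v)
        (fun l _ => (lp_fs _).add (lp_fs _))
      have h6 := D_mono (lp_fs (Q := Q) (x n)) h5.1
        (fun v => by rw [ha]; exact lp_sum a θ v)
      rw [h5.2] at h6
      refine h6.trans (le_of_eq ?_)
      exact Finset.sum_congr rfl fun l _ => D_add (lp_fs _) (lp_fs _)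
    refine h4.trans (Finset.sum_le_sum fun l _ => ?_)
    obtain ⟨G', hG', hdeg, hG0⟩ := hrel l
    obtain ⟨c, hc, hle⟩ := lp_alg (Q := Q) ht G' hG' hdeg hG0
    have h7 : Fs Q (fun v => b * lp Q t v + (-1) * log (Q.V v c)) :=
      ((lp_fs t).cmul _).add ((D_log hc).1.cmul _)
    have h8 := D_mono (lp_fs (a l)) h7 (fun v => by linarith [hle v])
    rw [D_add ((lp_fs t).cmul _) ((D_log hc).1.cmul _), D_cmul (lp_fs t),
      D_cmul (D_log hc).1, (D_log hc).2] at h8
    linarith
  have hloc : ∀ n v, Q.V v (x n) ≤ exp (B / Q.wt v) := by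
    intro n v
    have h1 := sum_le_D (lp_fs (Q := Q) (x n)) {v} fun v' _ => lp_nonneg _ _
    rw [Finset.sum_singleton] at h1
    have h2 : lp Q (x n) v ≤ B / Q.wt v := by
      rw [le_div_iff₀ (Q.wt_pos v)]
      linarith [hB n]
    have h3 : max (Q.V v (x n)) 1 ≤ exp (B / Q.wt v) := by
      rw [← log_le_iff_le_exp (by positivity)]
      exact h2
    exact (le_max_left _ _).trans h3
  -- places of good reduction
  let Gd : Q.Pl → Prop := fun v => (∀ i, Q.V v (F.coeff i) ≤ 1) ∧ Q.V v F.leadingCoeff = 1 ∧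
    Q.V v δ = 1
  have hF0 : F ≠ 0 := by
    rintro rfl
    simp at hd
  have hfin : {v | ¬ Gd v}.Finite := by
    have h1 : (⋃ i ∈ F.support, {v | Q.V v (F.coeff i) ≠ 1}).Finite :=
      Set.Finite.biUnion F.support.finite_toSet fun i hi =>
        Q.fin _ (Polynomial.mem_support_iff.1 hi)
    refine ((h1.union (Q.fin _ (Polynomial.leadingCoeff_ne_zero.2 hF0))).union
      (Q.fin _ hδ)).subset fun v hv => ?_
    by_contra hcon
    rw [Set.mem_union, not_or, Set.mem_union, not_or] at hcon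
    obtain ⟨⟨c0, c1⟩, c2⟩ := hcon
    apply hv
    refine ⟨fun i => ?_, by simpa using c1, by simpa using c2⟩
    by_cases hi : F.coeff i = 0
    · rw [hi, map_zero]
      exact zero_le_one
    · have : v ∉ {v | Q.V v (F.coeff i) ≠ 1} := fun h =>
        c0 (Set.mem_biUnion (Polynomial.mem_support_iff.2 hi) h)
      have h3 : Q.V v (F.coeff i) = 1 := by simpa using this
      exact h3.le
  refine ⟨fun v => if Gd v then 1 else exp (B / Q.wt v), ?_, ?_⟩
  · refine hfin.subset fun v hv => ?_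
    intro hg
    apply hv
    simp only [if_pos hg]
  · intro n v
    by_cases hg : Gd v
    · simp only [if_pos hg]
      exact good_le (Q.na v) hd hg.1 hg.2.1 hg.2.2 x hx (fun n => hloc n v) n
    · simp only [if_neg hg]
      exact hloc n v

end Pool.Agent.Q6.HX
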